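import Pool.Agent.TH977.VA.Upper
import Pool.Agent.H632R3.DihFam

/-!
# Random Cayley graphs of groups with an abelian subgroup of small index

In the regime `k ≫ log|G|`, `log k ≪ log|G|` the walk on a random Cayley graph of a group with an
abelian subgroup of index `κ^{o(1)}`, `κ = k / log|G|`, has cutoff whp at `log|G| / log κ`, and this
is larger than `t_*` by a constant factor as soon as `k ≤ (log|G|)^C` and
`log|G^ab| ≤ (1-c) log|G|`.
-/

open Filter Topology
open Pool.Agent.H632R3.RCG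

namespace Pool.Agent.Results.MP_d87a8f_pr.VirtuallyAbelian

open Pool.Agent.TH977

theorem rotations_comm (N : ℕ) : ∀ x ∈ Subgroup.zpowers (DihedralGroup.r 1 : DihedralGroup N),
    ∀ y ∈ Subgroup.zpowers (DihedralGroup.r 1 : DihedralGroup N), x * y = y * x := by
  rintro x ⟨a, rfl⟩ y ⟨b, rfl⟩
  simp only []
  rw [← zpow_add, ← zpow_add, add_comm]

theorem rotations_index (N : ℕ) [NeZero N] :
    (Subgroup.zpowers (DihedralGroup.r 1 : DihedralGroup N)).index = 2 := by
  have h1 := Subgroup.card_mul_index (Subgroup.zpowers (DihedralGroup.r 1 : DihedralGroup N))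
  rw [Nat.card_zpowers, DihedralGroup.orderOf_r_one, Nat.card_eq_fintype_card,
    DihedralGroup.card, mul_comm] at h1
  exact Nat.eq_of_mul_eq_mul_right (Nat.pos_of_ne_zero (NeZero.ne N)) h1

/-- The general theorem: cutoff at `log|G| / log κ`, and no cutoff at `t_*`. -/
theorem general (G : ℕ → Type) [∀ j, Group (G j)] [∀ j, Fintype (G j)] (k : ℕ → ℕ)
    (A : ∀ j, Subgroup (G j)) (hA : ∀ j, ∀ x ∈ A j, ∀ y ∈ A j, x * y = y * x)
    (hcard : Tendsto (fun j => Nat.card (G j)) atTop atTop)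
    (hk : Tendsto (fun j => (k j : ℝ) / Real.log (Nat.card (G j))) atTop atTop)
    (hk2 : Tendsto (fun j => Real.log (k j) / Real.log (Nat.card (G j))) atTop (𝓝 0))
    (hidx : Tendsto (fun j => Real.log (A j).index /
      Real.log ((k j : ℝ) / Real.log (Nat.card (G j)))) atTop (𝓝 0)) :
    CutoffWhpAt G k (fun j => Real.log (Nat.card (G j)) /
      Real.log ((k j : ℝ) / Real.log (Nat.card (G j)))) ∧
    ∀ C c : ℝ, 0 < C → 0 < c →
      (∀ᶠ j in atTop, (k j : ℝ) ≤ Real.log (Nat.card (G j)) ^ C) →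
      (∀ᶠ j in atTop, Real.log (Nat.card (Abelianization (G j))) ≤
        (1 - c) * Real.log (Nat.card (G j))) →
      (∃ ε : ℝ, 0 < ε ∧ ε < 1 ∧ ∀ δ : ℝ, 0 < δ → ∀ᶠ j in atTop, ∀ Z : Fin (k j) → G j,
        1 - δ ≤ tvDist Z ((1 + ε) * tStar (G j) (k j))) ∧
      ¬ CutoffWhpAt G k (fun j => tStar (G j) (k j)) :=
  ⟨VA.cutoff G k hcard hk hk2 A hA hidx, fun _ _ hC hc hkC hab =>
    VA.noCutoff G k hcard hk hk2 A hA hidx hC hc hkC hab⟩

/-- **Random Cayley graphs of groups with an abelian subgroup of small index.**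

First part (negative answer to the question): there are finite groups `G_j`, `|G_j| → ∞`, and
`k_j ≫ log|G_j|`, `log k_j ≪ log|G_j|`, for which the walk on the random Cayley graph does not
exhibit cutoff whp at `t_* = max {t_0(k, |G^ab|), log_k |G|}`.

Second part (general theorem): let `G_j` be finite groups, `|G_j| → ∞`, `κ_j = k_j / log|G_j| → ∞`,
`log k_j / log|G_j| → 0`, and suppose that `G_j` has an abelian subgroup of index `κ_j^{o(1)}`. Then
the walk exhibits cutoff whp at `log|G_j| / log κ_j`. If moreover `k_j ≤ (log|G_j|)^C` and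
`log|G_j^ab| ≤ (1 - c) log|G_j|` for large `j`, then there is `ε > 0` such that for every `δ > 0`,
all large `j` and *all* `Z`, `d_Z((1+ε) t_*) ≥ 1 - δ`; in particular there is no cutoff at `t_*`. -/
theorem result :
    (∃ (G : ℕ → Type) (_ : ∀ j, Group (G j)) (_ : ∀ j, Fintype (G j)) (k : ℕ → ℕ),
      Tendsto (fun j => Nat.card (G j)) atTop atTop ∧
      Tendsto (fun j => (k j : ℝ) / Real.log (Nat.card (G j))) atTop atTop ∧
      Tendsto (fun j => Real.log (k j) / Real.log (Nat.card (G j))) atTop (𝓝 0) ∧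
      ¬ CutoffWhpAt G k (fun j => tStar (G j) (k j))) ∧
    (∀ (G : ℕ → Type) [∀ j, Group (G j)] [∀ j, Fintype (G j)] (k : ℕ → ℕ)
      (A : ∀ j, Subgroup (G j)), (∀ j, ∀ x ∈ A j, ∀ y ∈ A j, x * y = y * x) →
      Tendsto (fun j => Nat.card (G j)) atTop atTop →
      Tendsto (fun j => (k j : ℝ) / Real.log (Nat.card (G j))) atTop atTop →
      Tendsto (fun j => Real.log (k j) / Real.log (Nat.card (G j))) atTop (𝓝 0) →
      Tendsto (fun j => Real.log (A j).index /
        Real.log ((k j : ℝ) / Real.log (Nat.card (G j)))) atTop (𝓝 0) →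
      CutoffWhpAt G k (fun j => Real.log (Nat.card (G j)) /
        Real.log ((k j : ℝ) / Real.log (Nat.card (G j)))) ∧
      ∀ C c : ℝ, 0 < C → 0 < c →
        (∀ᶠ j in atTop, (k j : ℝ) ≤ Real.log (Nat.card (G j)) ^ C) →
        (∀ᶠ j in atTop, Real.log (Nat.card (Abelianization (G j))) ≤
          (1 - c) * Real.log (Nat.card (G j))) →
        (∃ ε : ℝ, 0 < ε ∧ ε < 1 ∧ ∀ δ : ℝ, 0 < δ → ∀ᶠ j in atTop, ∀ Z : Fin (k j) → G j,
          1 - δ ≤ tvDist Z ((1 + ε) * tStar (G j) (k j))) ∧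
        ¬ CutoffWhpAt G k (fun j => tStar (G j) (k j))) := by
  refine ⟨?_, fun G _ _ k A hA hcard hk hk2 hidx => general G k A hA hcard hk hk2 hidx⟩
  refine ⟨fun j => DihedralGroup (2 ^ j), inferInstance, inferInstance, Pool.Agent.H632R3.Dih.kk,
    Pool.Agent.H632R3.Dih.card_tendsto, Pool.Agent.H632R3.Dih.kk_div,
    Pool.Agent.H632R3.Dih.kk_log_div, ?_⟩
  have hl := VA.lk_tendsto (fun j => DihedralGroup (2 ^ j)) Pool.Agent.H632R3.Dih.kk
    Pool.Agent.H632R3.Dih.kk_div
  have hidx : Tendsto (fun j : ℕ =>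
      Real.log (Subgroup.zpowers (DihedralGroup.r 1 : DihedralGroup (2 ^ j))).index /
      Real.log ((Pool.Agent.H632R3.Dih.kk j : ℝ) /
        Real.log (Nat.card (DihedralGroup (2 ^ j))))) atTop (𝓝 0) := by
    simp only [rotations_index]
    exact tendsto_const_nhds.div_atTop hl
  have h := (general (fun j => DihedralGroup (2 ^ j)) Pool.Agent.H632R3.Dih.kk
    (fun j => Subgroup.zpowers (DihedralGroup.r 1 : DihedralGroup (2 ^ j)))
    (fun j => rotations_comm (2 ^ j)) Pool.Agent.H632R3.Dih.card_tendsto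
    Pool.Agent.H632R3.Dih.kk_div Pool.Agent.H632R3.Dih.kk_log_div hidx).2 3 (1 / 2)
    (by norm_num) (by norm_num)
  refine (h ?_ ?_).2
  · filter_upwards [Pool.Agent.H632R3.Dih.kk_le] with j hj
    rw [Pool.Agent.H632R3.Dih.card_G]
    push_cast at hj ⊢
    exact hj
  · have hL := Real.tendsto_log_atTop.comp
      (tendsto_natCast_atTop_atTop.comp Pool.Agent.H632R3.Dih.card_tendsto)
    filter_upwards [hL.eventually_ge_atTop (2 * Real.log 4)] with j hj
    have h1 := (Pool.Agent.H632R3.Dih.log_ab (2 ^ j)).2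
    simp only [Function.comp] at hj
    linarith

end Pool.Agent.Results.MP_d87a8f_pr.VirtuallyAbelian
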